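import Pool.Agent.H29.ENR.Stmts3

/-!
# Board enr (MP_d15c96_al), row BTR

Transfer into an abelian Sylow subgroup.
-/

set_option autoImplicit false

namespace Pool.ENR

open scoped IsMulCommutative in
theorem btr_thm : BTRStmt := by
  intro T _ _ p hpf P z hs hna hcomm hz hz1
  by_contra hcon
  have hcon' : ∀ (n : T) (m : ℕ), n ^ m = 1 → ¬ p ∣ m →
      (∀ x, x ∈ P ↔ n * x * n⁻¹ ∈ P) → n * z = z * n := by
    intro n m h1 h2 h3
    by_contra h4
    exact hcon ⟨n, m, h1, h2, h3, h4⟩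
  have hp : p.Prime := hpf.out
  have hIC : IsMulCommutative P := ⟨⟨fun a b => Subtype.ext (hcomm a a.2 b b.2)⟩⟩
  have hN : ∀ g ∈ Subgroup.normalizer (P : Set T), g * z = z * g := by
    intro g hg
    have hpos := orderOf_pos g
    obtain ⟨k, m, hm, ho⟩ := Nat.exists_eq_pow_mul_and_not_dvd hpos.ne' p hp.ne_one
    have hcop : Nat.Coprime (p ^ k) m := Nat.Coprime.pow_left k ((Nat.Prime.coprime_iff_not_dvd hp).2 hm)
    have hbez : ((p ^ k : ℕ) : ℤ) * Nat.gcdA (p ^ k) m + (m : ℤ) * Nat.gcdB (p ^ k) m = 1 := by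
      have h5 := Nat.gcd_eq_gcd_ab (p ^ k) m
      rw [hcop.gcd_eq_one] at h5
      rw [← h5]
      norm_num
    have hpow : ∀ j : ℤ, g ^ j ∈ Subgroup.normalizer (P : Set T) := fun j => zpow_mem hg j
    have ho2 : g ^ (((p ^ k : ℕ) : ℤ) * (m : ℤ)) = 1 := by
      have h6 := pow_orderOf_eq_one g
      rw [ho] at h6
      rw [← Nat.cast_mul, zpow_natCast]
      exact h6
    have hn1 : (g ^ (((p ^ k : ℕ) : ℤ) * Nat.gcdA (p ^ k) m)) ^ m = 1 := by
      rw [← zpow_natCast, ← zpow_mul]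
      have h7 : ((p ^ k : ℕ) : ℤ) * Nat.gcdA (p ^ k) m * (m : ℤ) =
          ((p ^ k : ℕ) : ℤ) * (m : ℤ) * Nat.gcdA (p ^ k) m := by ring
      rw [h7, zpow_mul, ho2, one_zpow]
    have hh1 : (g ^ ((m : ℤ) * Nat.gcdB (p ^ k) m)) ^ (p ^ k) = 1 := by
      rw [← zpow_natCast, ← zpow_mul]
      have h7 : (m : ℤ) * Nat.gcdB (p ^ k) m * ((p ^ k : ℕ) : ℤ) =
          ((p ^ k : ℕ) : ℤ) * (m : ℤ) * Nat.gcdB (p ^ k) m := by ring
      rw [h7, zpow_mul, ho2, one_zpow]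
    have hnz := hcon' _ m hn1 hm (by
      intro x
      exact Subgroup.mem_normalizer_iff.1 (hpow _) x)
    have hhP : g ^ ((m : ℤ) * Nat.gcdB (p ^ k) m) ∈ P := by
      have hpg : IsPGroup p (Subgroup.zpowers (g ^ ((m : ℤ) * Nat.gcdB (p ^ k) m))) := by
        rw [IsPGroup.iff_orderOf]
        rintro ⟨x, hx⟩
        obtain ⟨i, rfl⟩ := Subgroup.mem_zpowers_iff.1 hx
        have h8 : (⟨(g ^ ((m : ℤ) * Nat.gcdB (p ^ k) m)) ^ i, hx⟩ :
            Subgroup.zpowers (g ^ ((m : ℤ) * Nat.gcdB (p ^ k) m))) ^ (p ^ k) = 1 := by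
          apply Subtype.ext
          rw [Subgroup.coe_pow, Subgroup.coe_one]
          change ((g ^ ((m : ℤ) * Nat.gcdB (p ^ k) m)) ^ i) ^ (p ^ k) = 1
          rw [← zpow_natCast, ← zpow_mul, mul_comm i, zpow_mul, zpow_natCast, hh1, one_zpow]
        obtain ⟨j, -, hj⟩ := (Nat.dvd_prime_pow hp).1 (orderOf_dvd_of_pow_eq_one h8)
        exact ⟨j, hj⟩
      have h9 := hpg.inf_normalizer_sylow P
      have h10 : g ^ ((m : ℤ) * Nat.gcdB (p ^ k) m) ∈
          Subgroup.zpowers (g ^ ((m : ℤ) * Nat.gcdB (p ^ k) m)) ⊓ (P : Subgroup T) := by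
        rw [← h9]
        exact Subgroup.mem_inf.2 ⟨Subgroup.mem_zpowers _, hpow _⟩
      exact (Subgroup.mem_inf.1 h10).2
    have hhz := hcomm _ hhP _ hz
    have hgnh : g = g ^ (((p ^ k : ℕ) : ℤ) * Nat.gcdA (p ^ k) m) *
        g ^ ((m : ℤ) * Nat.gcdB (p ^ k) m) := by
      rw [← zpow_add, hbez, zpow_one]
    calc g * z = g ^ (((p ^ k : ℕ) : ℤ) * Nat.gcdA (p ^ k) m) *
        g ^ ((m : ℤ) * Nat.gcdB (p ^ k) m) * z := by rw [← hgnh]
      _ = z * (g ^ (((p ^ k : ℕ) : ℤ) * Nat.gcdA (p ^ k) m) *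
        g ^ ((m : ℤ) * Nat.gcdB (p ^ k) m)) := by
          rw [mul_assoc, hhz, ← mul_assoc, hnz, mul_assoc]
      _ = z * g := by rw [← hgnh]
  have key : ∀ (k : ℕ) (g₀ : T), g₀⁻¹ * z ^ k * g₀ ∈ (P : Subgroup T) →
      g₀⁻¹ * z ^ k * g₀ = z ^ k := by
    intro k g₀ h
    obtain ⟨n, hn, h11⟩ := P.conj_eq_normalizer_conj_of_mem (z ^ k) g₀ (P.pow_mem hz k) h
    rw [h11]
    have h12 : Commute n z := hN n hn
    have h13 : Commute n (z ^ k) := h12.pow_right k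
    rw [mul_assoc, ← h13.eq, inv_mul_cancel_left]
  have hV := MonoidHom.transfer_eq_pow (MonoidHom.id P) z key
  have hV1 : MonoidHom.transfer (MonoidHom.id P) z = 1 := by
    rcases (MonoidHom.transfer (MonoidHom.id P)).normal_ker.eq_bot_or_eq_top with h | h
    · exfalso
      apply hna
      intro a c
      have hinj := (MonoidHom.ker_eq_bot_iff _).1 h
      apply hinj
      rw [map_mul, map_mul, mul_comm]
    · have h14 : z ∈ (MonoidHom.transfer (MonoidHom.id P)).ker := by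
        rw [h]
        exact Subgroup.mem_top z
      exact h14
  rw [hV] at hV1
  have h15 : z ^ (P : Subgroup T).index = 1 := congrArg Subtype.val hV1
  obtain ⟨k, hk⟩ := (IsPGroup.iff_orderOf.1 P.isPGroup') ⟨z, hz⟩
  rw [Subgroup.orderOf_mk] at hk
  have h16 := orderOf_dvd_of_pow_eq_one h15
  rw [hk] at h16
  have hk0 : k ≠ 0 := by
    intro h
    rw [h, pow_zero, orderOf_eq_one_iff] at hk
    exact hz1 hk
  exact P.not_dvd_index ((dvd_pow_self p hk0).trans h16)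

end Pool.ENR
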