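import Pool.Agent.H36.ENR.Stmts2

/-!
# Board enr (MP_d15c96_al), row FXY

An automorphism of `p`-power order fixes a Sylow `r`-subgroup if their number is prime to `p`.
-/

set_option autoImplicit false

namespace Pool.ENR

open Pointwise in
theorem fxy_thm : FXYStmt := by
  intro T _ _ p r N σ hp hr hσ hc
  have : Fact p.Prime := ⟨hp⟩
  have : Fact r.Prime := ⟨hr⟩
  have hpg : IsPGroup p (Subgroup.zpowers σ) := by
    rintro ⟨x, hx⟩
    obtain ⟨i, rfl⟩ := Subgroup.mem_zpowers_iff.1 hx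
    refine ⟨N, Subtype.ext ?_⟩
    rw [Subgroup.coe_pow, Subgroup.coe_one]
    change (σ ^ i) ^ (p ^ N) = 1
    rw [← zpow_natCast, ← zpow_mul, mul_comm i, zpow_mul, zpow_natCast, hσ, one_zpow]
  obtain ⟨P, hP⟩ := hpg.nonempty_fixed_point_of_prime_not_dvd_card (Sylow r T) hc
  refine ⟨P, fun x => ?_⟩
  have h1 : σ • P = P := hP ⟨σ, Subgroup.mem_zpowers σ⟩
  have h2 : σ • (P : Subgroup T) = (P : Subgroup T) := by
    rw [← Sylow.pointwise_smul_def, h1]
  have h3 : σ • x ∈ σ • (P : Subgroup T) ↔ x ∈ (P : Subgroup T) :=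
    Subgroup.smul_mem_pointwise_smul_iff
  rw [h2] at h3
  exact h3.symm

end Pool.ENR
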