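import Pool.Agent.H89.ENR.GRB
import Pool.Agent.H29.ENR.Stmts7

/-!
Board enr (MP_d15c96_al), row GRL: the base theorem over a finite local ring with maximal ideal
`(p)`, with `τ` acting as a power map (after row GRB, typed by helper89).
-/

set_option autoImplicit false

namespace Pool.ENR

open Pool.Agent.H81.ENG

section

variable {P : Type} [Group P] {R : Type} [CommRing R] {e : Multiplicative R →* P} {ζ u : R}
  {n : P} {τ : MulAut P} {lam : ℕ}

theorem grl_tau_e (hτe : ∀ y : R, τ (gE e y) = gE e (lam * y)) (M : ℕ) (y : R) :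
    (τ ^ M) (gE e y) = gE e ((lam : R) ^ M * y) := by
  induction M generalizing y with
  | zero => simp
  | succ M ih =>
    rw [pow_succ, MulAut.mul_apply, hτe, ih]
    congr 1
    ring

theorem grl_tau_n (hτe : ∀ y : R, τ (gE e y) = gE e (lam * y)) (hτn : τ n = gE e u * n)
    (M : ℕ) : (τ ^ M) n = gE e ((∑ i ∈ Finset.range M, (lam : R) ^ i) * u) * n := by
  induction M with
  | zero => simp [gE_zero]
  | succ M ih =>
    rw [pow_succ, MulAut.mul_apply, hτn, map_mul, grl_tau_e hτe, ih, ← mul_assoc, ← gE_add,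
      Finset.sum_range_succ]
    congr 2
    ring

/-- all powers of `τ` act on the range of `e` as multiplications -/
theorem grl_tau_z (hτe : ∀ y : R, τ (gE e y) = gE e (lam * y)) {lu : R} (hlu : (lam : R) * lu = 1)
    (m : ℤ) : ∃ c : R, ∀ y : R, (τ ^ m) (gE e y) = gE e (c * y) := by
  induction m using Int.induction_on with
  | zero => exact ⟨1, fun y => by simp⟩
  | succ m ih =>
    obtain ⟨c, hc⟩ := ih
    refine ⟨c * lam, fun y => ?_⟩
    rw [zpow_add_one, MulAut.mul_apply, hτe, hc]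
    congr 1
    ring
  | pred m ih =>
    obtain ⟨c, hc⟩ := ih
    refine ⟨c * lu, fun y => ?_⟩
    have h5 : τ⁻¹ (gE e y) = gE e (lu * y) := by
      apply τ.injective
      rw [MulAut.apply_inv_self, hτe, ← mul_assoc, hlu, one_mul]
    rw [zpow_sub_one, MulAut.mul_apply, h5, hc]
    congr 1
    ring

/-- multiplication of all coordinates by `y` -/
noncomputable def grlPsi (he : Function.Injective e) (hτe : ∀ y : R, τ (gE e y) = gE e (lam * y))
    (k : ℕ) (y : R) : gN e τ k →* gN e τ k :=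
  MonoidHom.mk' (fun x => ⟨⟨fun i => gE e (y * gL e (((x : TSq τ k) : ℤ → P) i)), fun i => by
      have h1 : ((x : TSq τ k) : ℤ → P) (i + k) = τ (((x : TSq τ k) : ℤ → P) i) := x.1.2 i
      have h2 : τ (((x : TSq τ k) : ℤ → P) i) =
          gE e (lam * gL e (((x : TSq τ k) : ℤ → P) i)) := by
        conv_lhs => rw [← gE_gL he (x.2 i)]
        exact hτe _
      show gE e (y * gL e (((x : TSq τ k) : ℤ → P) (i + k))) =
        τ (gE e (y * gL e (((x : TSq τ k) : ℤ → P) i)))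
      rw [h1, h2, hτe, gL_gE he]
      congr 1
      ring⟩, fun i => gE_mem _⟩) (by
    intro a b
    apply Subtype.ext
    apply Subtype.ext
    funext i
    show gE e (y * gL e (((a : TSq τ k) : ℤ → P) i * ((b : TSq τ k) : ℤ → P) i)) =
      gE e (y * gL e (((a : TSq τ k) : ℤ → P) i)) * gE e (y * gL e (((b : TSq τ k) : ℤ → P) i))
    rw [gL_mul he (a.2 i) (b.2 i), mul_add, gE_add])

theorem grlPsi_apply (he : Function.Injective e) (hτe : ∀ y : R, τ (gE e y) = gE e (lam * y))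
    (k : ℕ) (y : R) (x : gN e τ k) (i : ℤ) :
    (((grlPsi he hτe k y x : gN e τ k) : TSq τ k) : ℤ → P) i =
      gE e (y * gL e (((x : TSq τ k) : ℤ → P) i)) := rfl

/-- the sequence with given values on `[0, k)` -/
def grlS (hτe : ∀ y : R, τ (gE e y) = gE e (lam * y)) {lu : R} (hlu : (lam : R) * lu = 1)
    (k : ℕ) (hk : 0 < k) (f : Fin k → R) : gN e τ k :=
  ⟨⟨cybG τ k (fun i => gE e (f ⟨i.toNat % k, Nat.mod_lt _ hk⟩)), cybG_mem τ hk _⟩, fun i => by
    obtain ⟨c, hc⟩ := grl_tau_z hτe hlu (i / (k : ℤ))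
    show (τ ^ (i / (k : ℤ))) (gE e (f ⟨(i % (k : ℤ)).toNat % k, Nat.mod_lt _ hk⟩)) ∈ e.range
    rw [hc]
    exact gE_mem _⟩

theorem grlS_apply (hτe : ∀ y : R, τ (gE e y) = gE e (lam * y)) {lu : R}
    (hlu : (lam : R) * lu = 1) (k : ℕ) (hk : 0 < k) (f : Fin k → R) (i : ℤ) :
    (((grlS hτe hlu k hk f : gN e τ k) : TSq τ k) : ℤ → P) i =
      (τ ^ (i / (k : ℤ))) (gE e (f ⟨(i % (k : ℤ)).toNat % k, Nat.mod_lt _ hk⟩)) := rfl

theorem grlS_val (hτe : ∀ y : R, τ (gE e y) = gE e (lam * y)) {lu : R}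
    (hlu : (lam : R) * lu = 1) (k : ℕ) (hk : 0 < k) (f : Fin k → R) (t : Fin k) :
    (((grlS hτe hlu k hk f : gN e τ k) : TSq τ k) : ℤ → P) ((t : ℕ) : ℤ) = gE e (f t) := by
  rw [grlS_apply]
  have h1 : ((t : ℕ) : ℤ) / (k : ℤ) = 0 :=
    Int.ediv_eq_zero_of_lt (by positivity) (by exact_mod_cast t.2)
  have h2 : ((t : ℕ) : ℤ) % (k : ℤ) = (t : ℕ) :=
    Int.emod_eq_of_lt (by positivity) (by exact_mod_cast t.2)
  rw [h1, zpow_zero, MulAut.one_apply]
  congr 2
  apply Fin.ext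
  show (((t : ℕ) : ℤ) % (k : ℤ)).toNat % k = t
  rw [h2, Int.toNat_natCast, Nat.mod_eq_of_lt t.2]

theorem grlS_add (hτe : ∀ y : R, τ (gE e y) = gE e (lam * y)) {lu : R}
    (hlu : (lam : R) * lu = 1) (k : ℕ) (hk : 0 < k) (f g : Fin k → R) :
    grlS hτe hlu k hk (f + g) = grlS hτe hlu k hk f * grlS hτe hlu k hk g := by
  apply Subtype.ext
  apply Subtype.ext
  funext i
  show (τ ^ (i / (k : ℤ))) (gE e (f _ + g _)) = (τ ^ (i / (k : ℤ))) (gE e (f _)) *
    (τ ^ (i / (k : ℤ))) (gE e (g _))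
  rw [gE_add, map_mul]

theorem grlS_smul (he : Function.Injective e) (hτe : ∀ y : R, τ (gE e y) = gE e (lam * y))
    {lu : R} (hlu : (lam : R) * lu = 1) (k : ℕ) (hk : 0 < k) (y : R) (f : Fin k → R) :
    grlS hτe hlu k hk (y • f) = grlPsi he hτe k y (grlS hτe hlu k hk f) := by
  apply Subtype.ext
  apply Subtype.ext
  funext i
  rw [grlPsi_apply, grlS_apply, grlS_apply]
  obtain ⟨c, hc⟩ := grl_tau_z hτe hlu (i / (k : ℤ))
  rw [hc, hc, gL_gE he, Pi.smul_apply, smul_eq_mul]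
  congr 1
  ring

theorem grlS_inj (he : Function.Injective e) (hτe : ∀ y : R, τ (gE e y) = gE e (lam * y))
    {lu : R} (hlu : (lam : R) * lu = 1) (k : ℕ) (hk : 0 < k) :
    Function.Injective (grlS hτe hlu k hk) := by
  intro f g hfg
  funext t
  apply gE_inj he
  rw [← grlS_val hτe hlu k hk f t, ← grlS_val hτe hlu k hk g t, hfg]

theorem grlS_surj (he : Function.Injective e) (hτe : ∀ y : R, τ (gE e y) = gE e (lam * y))
    {lu : R} (hlu : (lam : R) * lu = 1) (k : ℕ) (hk : 0 < k) :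
    Function.Surjective (grlS hτe hlu k hk) := by
  intro x
  have hkz : (0 : ℤ) < (k : ℤ) := by exact_mod_cast hk
  refine ⟨fun t => gL e (((x : TSq τ k) : ℤ → P) ((t : ℕ) : ℤ)), ?_⟩
  apply Subtype.ext
  apply Subtype.ext
  funext i
  rw [grlS_apply]
  show (τ ^ (i / (k : ℤ)))
    (gE e (gL e (((x : TSq τ k) : ℤ → P) (((i % (k : ℤ)).toNat % k : ℕ) : ℤ)))) = _
  have hge : 0 ≤ i % (k : ℤ) := Int.emod_nonneg _ hkz.ne'
  have hlt : i % (k : ℤ) < k := Int.emod_lt_of_pos _ hkz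
  have h1 : (((i % (k : ℤ)).toNat % k : ℕ) : ℤ) = i % (k : ℤ) := by
    rw [Nat.mod_eq_of_lt (by omega), Int.toNat_of_nonneg hge]
  rw [h1, gE_gL he (x.2 _)]
  exact (cyb_tw' x.1.2 i).symm

end

theorem grl_thm (hAFG : AFGStmt) (hUN3 : UN3Stmt) (hNUM : NUMStmt) : GRLStmt := by
  intro P _ R _ p r b c lam e ζ u n τ hp hp2 hr hrp hb hc hGR he hgen hnr hnc hlam hτe hτn hu d hL
  have : Fact p.Prime := ⟨hp⟩
  have : Fact r.Prime := ⟨hr⟩
  have : NeZero r := ⟨hr.ne_zero⟩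
  change ∀ x : P, ∃ (y : R) (i : ℕ), x = gE e y * n ^ i at hgen
  change ∀ y : R, n * gE e y * n⁻¹ = gE e (ζ * y) at hnc
  change ∀ y : R, τ (gE e y) = gE e (lam * y) at hτe
  change τ n = gE e u * n at hτn
  have hk : 0 < p ^ b := pow_pos hp.pos b
  have hNn : e.range.Normal := g_normal hgen hnc
  obtain ⟨hRf, hpc, hpc1, -⟩ := id hGR
  -- the number lam
  have hlamZ : (p : ℤ) ∣ (lam : ℤ) - 1 := by
    have h1 := (Nat.modEq_iff_dvd.1 hlam)
    have h2 := (dvd_neg.2 h1)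
    have h3 : -(((1 : ℕ) : ℤ) - (lam : ℤ)) = (lam : ℤ) - 1 := by push_cast; ring
    rwa [h3] at h2
  obtain ⟨q, hq⟩ := id hlamZ
  have hlamR : (lam : R) = 1 + p * (q : R) := by
    have h1 := congrArg (fun z : ℤ => (z : R)) hq
    push_cast at h1
    linear_combination h1
  have hlamP : (lam : R) ^ (p ^ (c - 1)) = 1 := by
    have h1 : (p : R) ∣ (lam : R) - 1 := ⟨(q : R), by rw [hlamR]; ring⟩
    have h2 := dvd_sub_pow_of_dvd_sub (R := R) (p := p) (a := (lam : R)) (b := 1) h1 (c - 1)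
    rw [one_pow, Nat.sub_add_cancel hc, hpc, zero_dvd_iff, sub_eq_zero] at h2
    exact h2
  have hlamP' : ∀ M : ℕ, (lam : R) ^ (p ^ (c - 1) * M) = 1 := by
    intro M
    rw [pow_mul, hlamP, one_pow]
  obtain ⟨lu, hlu⟩ : ∃ lu : R, (lam : R) * lu = 1 := by
    refine ⟨(lam : R) ^ (p ^ (c - 1) - 1), ?_⟩
    rw [← pow_succ', Nat.sub_add_cancel (pow_pos hp.pos _), hlamP]
  let θ : P →* P ⧸ e.range := QuotientGroup.mk' _
  have hθ1 : ∀ x, θ x = 1 ↔ x ∈ e.range := fun x => QuotientGroup.eq_one_iff x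
  have hθτ : ∀ x, θ (τ x) = θ x := by
    intro x
    obtain ⟨y, i, rfl⟩ := hgen x
    rw [map_mul, map_pow, hτe, hτn, map_mul, map_mul, map_pow, map_pow, map_mul,
      (hθ1 (gE e u)).mpr (gE_mem _), one_mul, (hθ1 (gE e (lam * y))).mpr (gE_mem _),
      (hθ1 (gE e y)).mpr (gE_mem _)]
  have hθτz : ∀ (m : ℤ) (x : P), θ ((τ ^ m) x) = θ x := by
    intro m
    induction m using Int.induction_on with
    | zero => intro x; simp
    | succ m ih =>
      intro x
      rw [zpow_add_one, MulAut.mul_apply, ih, hθτ]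
    | pred m ih =>
      intro x
      rw [zpow_sub_one, MulAut.mul_apply, ih, ← hθτ (τ⁻¹ x), MulAut.apply_inv_self]
  -- the order of τ
  have hτc : τ ^ (p ^ c) = 1 := by
    apply MulEquiv.ext
    intro x
    obtain ⟨y, i, rfl⟩ := hgen x
    rw [map_mul, map_pow, grl_tau_e hτe, grl_tau_n hτe hτn]
    have h1 : (lam : R) ^ (p ^ c) = 1 := by
      have h2 := hlamP' p
      rwa [← pow_succ, Nat.sub_add_cancel hc] at h2
    have h3 : ∑ i ∈ Finset.range (p ^ c), (lam : R) ^ i = 0 := by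
      obtain ⟨w, hw⟩ := cyb_geo (p := p) (lam : ℤ) hlamZ c
      have h4 := congrArg (fun z : ℤ => (z : R)) hw
      push_cast at h4
      rw [h4, hpc, zero_mul]
    rw [h1, h3, zero_mul, gE_zero, one_mul, one_mul]
    rfl
  set μ := b + c - 1 with hμ
  have hμ1 : μ + 1 = b + c := by omega
  have hμk : p ^ μ = p ^ b * p ^ (c - 1) := by
    rw [← pow_add]; congr 1; omega
  have hS1 : (tsh τ (p ^ b)) ^ (p ^ (μ + 1)) = 1 := by
    apply MulEquiv.ext
    intro x
    apply Subtype.ext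
    funext i
    rw [hμ1, pow_add, cyb_sh_pow, hτc]
    rfl
  let N : Subgroup (TSq τ (p ^ b)) := gN e τ (p ^ b)
  have hNnorm : N.Normal := by
    constructor
    intro x hx g i
    exact hNn.conj_mem _ (hx i) _
  have hcomm : ∀ x ∈ N, ∀ y ∈ N, x * y = y * x := by
    intro x hx y hy
    apply Subtype.ext
    funext i
    obtain ⟨w, hw⟩ := hx i
    obtain ⟨w', hw'⟩ := hy i
    show (x : ℤ → P) i * (y : ℤ → P) i = (y : ℤ → P) i * (x : ℤ → P) i
    rw [← hw, ← hw', ← map_mul, ← map_mul, mul_comm]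
  -- the constant sequence
  have hlp : (lam : R) * (p : R) ^ (c - 1) = (p : R) ^ (c - 1) := by
    have h1 : (p : R) * (p : R) ^ (c - 1) = 0 := by
      rw [← pow_succ', Nat.sub_add_cancel hc, hpc]
    rw [hlamR]
    linear_combination (q : R) * h1
  let v : TSq τ (p ^ b) := ⟨fun _ => gE e ((p : R) ^ (c - 1)), fun _ => by
    show gE e ((p : R) ^ (c - 1)) = τ (gE e ((p : R) ^ (c - 1)))
    rw [hτe, hlp]⟩
  have hv : v ∈ N := fun _ => gE_mem _
  have hv1 : v ≠ 1 := by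
    intro h
    have h1 : gE e ((p : R) ^ (c - 1)) = 1 := congrFun (congrArg Subtype.val h) 0
    rw [← gE_zero (e := e)] at h1
    exact hpc1 (gE_inj he h1)
  have hSv : tsh τ (p ^ b) v = v := rfl
  -- the operators
  let ψ : R → N →* N := grlPsi he hτe (p ^ b)
  have hψconj : ∀ (i : R) (g : TSq τ (p ^ b)) (x y : N),
      (y : TSq τ (p ^ b)) = g * x * g⁻¹ →
      ((ψ i y : N) : TSq τ (p ^ b)) = g * (ψ i x : N) * g⁻¹ := by
    intro i g x y hxy
    apply Subtype.ext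
    funext j
    have h1 : ((y : TSq τ (p ^ b)) : ℤ → P) j =
        (g : ℤ → P) j * ((x : TSq τ (p ^ b)) : ℤ → P) j * ((g : ℤ → P) j)⁻¹ :=
      congrFun (congrArg Subtype.val hxy) j
    show gE e (i * gL e (((y : TSq τ (p ^ b)) : ℤ → P) j)) =
      (g : ℤ → P) j * gE e (i * gL e (((x : TSq τ (p ^ b)) : ℤ → P) j)) * ((g : ℤ → P) j)⁻¹
    obtain ⟨a, ha⟩ := g_conj' hgen hnc ((g : ℤ → P) j)
    have h2 := ha (gL e (((x : TSq τ (p ^ b)) : ℤ → P) j))
    rw [gE_gL he (x.2 j)] at h2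
    rw [h1, h2, gL_gE he, ha]
    congr 1
    ring
  have hψS : ∀ (i : R) (x y : N), (y : TSq τ (p ^ b)) = tsh τ (p ^ b) x →
      ((ψ i y : N) : TSq τ (p ^ b)) = tsh τ (p ^ b) (ψ i x : N) := by
    intro i x y hxy
    apply Subtype.ext
    funext j
    have h1 : ((y : TSq τ (p ^ b)) : ℤ → P) j = ((x : TSq τ (p ^ b)) : ℤ → P) (j + 1) :=
      congrFun (congrArg Subtype.val hxy) j
    show gE e (i * gL e (((y : TSq τ (p ^ b)) : ℤ → P) j)) =
      gE e (i * gL e (((x : TSq τ (p ^ b)) : ℤ → P) (j + 1)))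
    rw [h1]
  have hψS' : ∀ (i : R) (x y : N), (y : TSq τ (p ^ b)) = (tsh τ (p ^ b))⁻¹ x →
      ((ψ i y : N) : TSq τ (p ^ b)) = (tsh τ (p ^ b))⁻¹ (ψ i x : N) := by
    intro i x y hxy
    apply Subtype.ext
    funext j
    have h1 : ((y : TSq τ (p ^ b)) : ℤ → P) j = ((x : TSq τ (p ^ b)) : ℤ → P) (j - 1) :=
      congrFun (congrArg Subtype.val hxy) j
    show gE e (i * gL e (((y : TSq τ (p ^ b)) : ℤ → P) j)) =
      gE e (i * gL e (((x : TSq τ (p ^ b)) : ℤ → P) (j - 1)))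
    rw [h1]
  -- affine maps
  have haff : ∀ (a : N →* N) (u0 : N), a ⟨v, hv⟩ = 1 → (∀ i x, a (ψ i x) = ψ i (a x)) →
      ∃ m t : ℕ, ¬ p ∣ m ∧
        ∀ y, (fun y => a y * u0)^[t + m * p ^ μ] y = (fun y => a y * u0)^[t] y := by
    intro a u0 ha haψ
    let E : (Fin (p ^ b) → R) → N := grlS hτe hlu (p ^ b) hk
    have hEadd : ∀ f g, E (f + g) = E f * E g := grlS_add hτe hlu (p ^ b) hk
    have hEinj : Function.Injective E := grlS_inj he hτe hlu (p ^ b) hk
    have hEsurj : Function.Surjective E := grlS_surj he hτe hlu (p ^ b) hk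
    have hEsm : ∀ (y : R) f, E (y • f) = ψ y (E f) := grlS_smul he hτe hlu (p ^ b) hk
    let ee := Equiv.ofBijective E ⟨hEinj, hEsurj⟩
    have hee : ∀ x, E (ee.symm x) = x := fun x => ee.apply_symm_apply x
    let A : (Fin (p ^ b) → R) →ₗ[R] (Fin (p ^ b) → R) :=
      { toFun := fun f => ee.symm (a (E f))
        map_add' := by
          intro f g
          apply hEinj
          rw [hee, hEadd, hEadd, hee, hee, map_mul]
        map_smul' := by
          intro y f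
          apply hEinj
          rw [hee, RingHom.id_apply, hEsm, hEsm, hee, haψ] }
    have hEA : ∀ f, E (A f) = a (E f) := fun f => hee _
    have hE0 : E 0 = 1 := by
      have h1 := hEadd 0 0
      rw [add_zero] at h1
      exact (mul_eq_left.mp h1.symm)
    obtain ⟨m, t, hm, hA⟩ := hAFG R p b c hc hGR A (ee.symm u0) (ee.symm ⟨v, hv⟩) (by
      intro h
      apply hv1
      have h1 := congrArg E h
      rw [hee, hE0] at h1
      exact congrArg Subtype.val h1) (by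
      apply hEinj
      rw [hEA, hee, ha, hE0])
    have hsemi : ∀ (i : ℕ) (f : Fin (p ^ b) → R),
        E ((fun v => A v + ee.symm u0)^[i] f) = (fun y => a y * u0)^[i] (E f) := by
      intro i
      induction i with
      | zero => intro f; rfl
      | succ i ih =>
        intro f
        rw [Function.iterate_succ_apply, Function.iterate_succ_apply, ih, hEadd, hEA, hee]
    refine ⟨m, t, hm, fun y => ?_⟩
    obtain ⟨f, rfl⟩ := hEsurj y
    rw [← hsemi, ← hsemi, hA]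
  -- the model sequence
  have h2b : 2 < p ^ b := by
    have h3 : 3 ≤ p := by
      have := hp.two_le
      omega
    calc 2 < p := by omega
      _ = p ^ 1 := (pow_one p).symm
      _ ≤ p ^ b := Nat.pow_le_pow_right hp.pos hb
  obtain ⟨a, ha0, haM, -, -, hcase⟩ := root_seq hp (Ne.symm hrp) h2b
  let ξ : TSq τ (p ^ b) := ⟨cybG τ (p ^ b) (fun i => pw n (a i)), cybG_mem τ hk _⟩
  have hper : ∀ i, a (i % ((p ^ b : ℕ) : ℤ)) = a i := by
    intro i
    have h3 : Function.Periodic a ((p ^ b : ℕ) : ℤ) := haM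
    have h4 := h3.int_mul (i / ((p ^ b : ℕ) : ℤ)) (i % ((p ^ b : ℕ) : ℤ))
    simp only [Int.cast_id] at h4
    rw [mul_comm, Int.emod_add_mul_ediv] at h4
    exact h4.symm
  have hθξ : ∀ i, θ ((ξ : ℤ → P) i) = pw (θ n) (a i) := by
    intro i
    show θ ((τ ^ (i / ((p ^ b : ℕ) : ℤ))) (pw n (a (i % ((p ^ b : ℕ) : ℤ))))) = _
    rw [hθτz, pw_map, hper]
  have hθnr : (θ n) ^ r = 1 := by rw [← map_pow, hnr, map_one]
  have hξ0 : (ξ : ℤ → P) 0 = n := by
    show (τ ^ ((0 : ℤ) / ((p ^ b : ℕ) : ℤ))) (pw n (a ((0 : ℤ) % ((p ^ b : ℕ) : ℤ)))) = n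
    rw [Int.zero_ediv, Int.zero_emod, ha0, pw_one n hr.one_lt]
    simp
  -- no fixed points
  have hfix : ∀ y ∈ N, ∀ M : ℕ, ¬ p ∣ M →
      ((tsh τ (p ^ b)) ^ (p ^ μ * M)) (y * ξ) ≠ y * ξ := by
    intro y hy M hM heq
    have h1 := congrFun (congrArg Subtype.val heq) 0
    rw [hμk, mul_assoc, cyb_sh_pow] at h1
    have hy0 := gE_gL he (hy 0)
    set w := gL e ((y : ℤ → P) 0) with hw
    have h2 : ((y * ξ : TSq τ (p ^ b)) : ℤ → P) 0 = gE e w * n := by
      show (y : ℤ → P) 0 * (ξ : ℤ → P) 0 = _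
      rw [hξ0, hy0]
    rw [h2, map_mul, grl_tau_e hτe, grl_tau_n hτe hτn, hlamP', one_mul] at h1
    have h3 : gE e ((∑ i ∈ Finset.range (p ^ (c - 1) * M), (lam : R) ^ i) * u) = 1 := by
      have h4 := mul_left_cancel h1
      exact mul_eq_right.mp h4
    rw [← gE_zero (e := e)] at h3
    have h5 := gE_inj he h3
    have h6 : ∑ i ∈ Finset.range (p ^ (c - 1) * M), (lam : R) ^ i = 0 := by
      obtain ⟨u', hu'⟩ := hu
      have h7 := congrArg (fun x => x * (↑(u'⁻¹) : R)) h5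
      simp only [zero_mul] at h7
      rwa [mul_assoc, ← hu', Units.mul_inv, mul_one] at h7
    -- the integer sum
    obtain ⟨w', hw'⟩ : ((p ^ (c - 1) : ℕ) : ℤ) ∣
        ∑ i ∈ Finset.range (p ^ (c - 1) * M), (lam : ℤ) ^ i := by
      rw [cyb_geo_mul]
      exact (cyb_geo (p := p) (lam : ℤ) hlamZ (c - 1)).mul_right _
    have hpw : ¬ (p : ℤ) ∣ w' := by
      rintro ⟨w2, hw2⟩
      refine hNUM p c M (lam : ℤ) 0 1 hp hp2 hc hM ?_ hlamZ ?_
      · intro h
        exact (Nat.prime_iff_prime_int.1 hp).not_isUnit (isUnit_of_dvd_one h)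
      · rw [zero_mul, zero_add, one_mul, hw', hw2]
        refine ⟨w2, ?_⟩
        push_cast
        rw [← mul_assoc, ← pow_succ, Nat.sub_add_cancel hc]
    have h7 : ((w' : ℤ) : R) * (p : R) ^ (c - 1) = 0 := by
      have h8 := congrArg (fun z : ℤ => (z : R)) hw'
      push_cast at h8
      rw [h6] at h8
      linear_combination -h8
    have hcop : IsCoprime w' ((p : ℤ) ^ c) :=
      IsCoprime.pow_right (((Prime.coprime_iff_not_dvd (Nat.prime_iff_prime_int.1 hp)).2 hpw).symm)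
    obtain ⟨a1, b1, hab⟩ := hcop
    have h9 := congrArg (fun z : ℤ => (z : R)) hab
    push_cast at h9
    rw [hpc, mul_zero, add_zero] at h9
    apply hpc1
    calc (p : R) ^ (c - 1) = (p : R) ^ (c - 1) * ((a1 : R) * (w' : R)) := by rw [h9, mul_one]
      _ = (a1 : R) * ((w' : R) * (p : R) ^ (c - 1)) := by ring
      _ = 0 := by rw [h7, mul_zero]
  have hSN : ∀ x ∈ N, tsh τ (p ^ b) x ∈ N := fun x hx i => hx (i + 1)
  have hSN' : ∀ x ∈ N, (tsh τ (p ^ b))⁻¹ x ∈ N := fun x hx i => hx (i - 1)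
  rw [← hμ1]
  rcases hcase with ⟨rr, hrr, hrel⟩ | ⟨rr, hrr, hrel⟩
  · refine hUN3 _ (tsh τ (p ^ b)) N p μ R ψ hp hcomm hSN hSN' hS1 hψS hψconj v hv hv1 hSv haff ξ rr
      hrr ?_ hfix d hL.1
    intro i
    rw [← hθ1]
    show θ ((((ef (tsh τ (p ^ b)))^[rr] ξ : TSq τ (p ^ b)) : ℤ → P) i *
      ((ξ : ℤ → P) (i + 1))⁻¹) = 1
    have h1 := coe_ef_restr (shift P) (TSq τ (p ^ b)) (TSq_shift τ (p ^ b)) rr ξ
    have h2 := congrFun h1 i
    have h3 : (((ef (tsh τ (p ^ b)))^[rr] ξ : TSq τ (p ^ b)) : ℤ → P) i =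
      ((ef (shift P))^[rr] (ξ : ℤ → P)) i := h2
    rw [h3, map_mul, map_inv, hθξ, rel_iter θ hθnr rr (ξ : ℤ → P) a hθξ, hrel, mul_inv_cancel]
  · refine hUN3 _ (tsh τ (p ^ b))⁻¹ N p μ R ψ hp hcomm hSN' (by rw [inv_inv]; exact hSN) ?_ hψS'
      hψconj v hv hv1 ?_ haff ξ rr hrr ?_ ?_ d hL.2
    · rw [inv_pow, hS1, inv_one]
    · apply (tsh τ (p ^ b)).injective
      rw [MulAut.apply_inv_self, hSv]
    · intro i
      rw [← hθ1]
      show θ ((((ef (tsh τ (p ^ b))⁻¹)^[rr] ξ : TSq τ (p ^ b)) : ℤ → P) i *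
        ((ξ : ℤ → P) (i - 1))⁻¹) = 1
      have h1 := coe_ef_restr_inv (shift P) (TSq τ (p ^ b)) (TSq_shift τ (p ^ b)) rr ξ
      have h2 := congrFun h1 i
      have h3 : (((ef (tsh τ (p ^ b))⁻¹)^[rr] ξ : TSq τ (p ^ b)) : ℤ → P) i =
        ((ef (shift P)⁻¹)^[rr] (ξ : ℤ → P)) i := h2
      rw [h3, map_mul, map_inv, hθξ, rel_iter_inv θ hθnr rr (ξ : ℤ → P) a hθξ, hrel,
        mul_inv_cancel]
    · intro y hy M hM heq
      apply hfix y hy M hM
      have h1 := congrArg ((tsh τ (p ^ b)) ^ (p ^ μ * M)) heq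
      rw [inv_pow, MulAut.apply_inv_self] at h1
      exact h1.symm

end Pool.ENR
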