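import Pool.Agent.H29.ENR.Stmts

/-!
# Board enr (MP_d15c96_al), row SEC

Automorphisms of `p`-power order with a nontrivial invariant section of order prime to `p`.
-/

set_option autoImplicit false

namespace Pool.ENR

open Pool.Agent.H81.ENG

theorem sec_thm (h1 : QTLStmt) (h2 : COPStmt) : SECStmt := by
  intro T _ p m N σ hp hN hSec b d hd
  obtain ⟨Γ, D, hΓ, hD, hDΓ, hnorm, hidx, hidx0, x, hxΓ, hxD⟩ := hSec
  have hn : (D.subgroupOf Γ).Normal := by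
    refine ⟨fun n hn g => ?_⟩
    rw [Subgroup.mem_subgroupOf] at hn ⊢
    have h3 := hnorm g g.2 n hn
    simpa using h3
  have hmap : (D.subgroupOf Γ).map ((restr σ Γ hΓ : MulAut Γ) : Γ →* Γ) = D.subgroupOf Γ := by
    ext y
    rw [Subgroup.mem_map]
    constructor
    · rintro ⟨z, hz, rfl⟩
      rw [Subgroup.mem_subgroupOf] at hz ⊢
      exact (hD _).1 hz
    · intro hy
      refine ⟨(restr σ Γ hΓ)⁻¹ y, ?_, ?_⟩
      · rw [Subgroup.mem_subgroupOf] at hy ⊢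
        rw [restr_inv_apply]
        refine (hD _).2 ?_
        rw [MulAut.apply_inv_self]
        exact hy
      · exact MulAut.apply_inv_self _ _ _
  let τ : MulAut (Γ ⧸ D.subgroupOf Γ) :=
    QuotientGroup.congr (D.subgroupOf Γ) (D.subgroupOf Γ) (restr σ Γ hΓ) hmap
  have hτ : ∀ y : Γ, τ (y : Γ ⧸ D.subgroupOf Γ) = ((restr σ Γ hΓ y : Γ) : Γ ⧸ D.subgroupOf Γ) :=
    fun y => rfl
  have hτpow : ∀ (k : ℕ) (y : Γ), (τ ^ k) (y : Γ ⧸ D.subgroupOf Γ) =
      ((((restr σ Γ hΓ) ^ k) y : Γ) : Γ ⧸ D.subgroupOf Γ) := by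
    intro k
    induction k with
    | zero => intro y; rfl
    | succ k ih =>
      intro y
      rw [pow_succ, MulAut.mul_apply, hτ, ih, pow_succ, MulAut.mul_apply]
  have hcard : Nat.card (Γ ⧸ D.subgroupOf Γ) = D.relIndex Γ := rfl
  have : Finite (Γ ⧸ D.subgroupOf Γ) := by
    refine Nat.finite_of_card_ne_zero ?_
    rw [hcard]
    exact hidx0
  have hSL := h1 T (Γ ⧸ D.subgroupOf Γ) σ τ Γ hΓ (QuotientGroup.mk' (D.subgroupOf Γ))
    (QuotientGroup.mk'_surjective _) (fun y => rfl) (p ^ b) d (pow_pos hp.pos b) hd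
  refine h2 (Γ ⧸ D.subgroupOf Γ) p b m N τ hp (by rw [hcard]; exact hidx) ?_ ?_ d hSL
  · ext y
    obtain ⟨y, rfl⟩ := QuotientGroup.mk_surjective y
    rw [hτpow, MulAut.one_apply]
    congr 1
    apply Subtype.ext
    rw [restr_pow_apply, hN, MulAut.one_apply]
  · intro h
    apply hxD
    have h3 := hτpow (p ^ m) ⟨x, hxΓ⟩
    rw [h, MulAut.one_apply, QuotientGroup.eq] at h3
    rw [Subgroup.mem_subgroupOf] at h3
    have h4 : x⁻¹ * (σ ^ (p ^ m)) x ∈ D := by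
      have h5 : (((⟨x, hxΓ⟩ : Γ)⁻¹ * ((restr σ Γ hΓ) ^ (p ^ m)) ⟨x, hxΓ⟩ : Γ) : T) =
          x⁻¹ * (σ ^ (p ^ m)) x := by
        rw [Subgroup.coe_mul, restr_pow_apply, Subgroup.coe_inv]
      rw [← h5]
      exact h3
    have h6 := hnorm x hxΓ _ h4
    have h7 : x * (x⁻¹ * (σ ^ (p ^ m)) x) * x⁻¹ = (σ ^ (p ^ m)) x * x⁻¹ := by group
    rw [← h7]
    exact h6

end Pool.ENR
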